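import Pool.Agent.MWHP.StmtsP
import Pool.Agent.MWH.StmtsC

/-!
# Block MWHP, parts B and C: the systems h3, h4, h5 for arbitrary period, statements with fixed `n`

Text of `MWH/StmtsA.lean`, `StmtsB.lean`, `StmtsC.lean` with a period `n`.  The rows are the converted files of
the rows of squad MWH.
-/

namespace Pool.Agent.MWHP.F

open Pool.Agent.Helper14_MV Pool.Agent.Helper2_MV Pool.Agent.MVO Pool.Agent.MWL Pool.Agent.MWS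
open Pool.Agent.MWA Pool.Agent.MWH Pool.Agent.MWHP

/-- twin of MWS.LRN -/
def LrnStmt (n : ℕ) : Prop := ∀ (β θ : FIC), BasN n β → β ≤ θ → LR n (FC.ofFIC θ)

/-- NFE -/
def NfeStmt (n : ℕ) : Prop :=
  ∀ β : FIC, BaseH n β → ∀ (k : ℕ) (B B' : ℕ → List ℕ), OkB k B → OkB k B' →
    EqT n k B B' →
    (∀ i ≤ k, ∀ x y, x ≠ y → x ∈ B i → y ∈ B i → (∀ j ≤ k, j ≠ i → x ∉ B j ∨ y ∉ B j) →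
      (Bef (B i) x y ↔ Bef (B' i) x y)) → RR β (asm k B) (asm k B')

/-- SHW -/
def ShwStmt (n : ℕ) : Prop :=
  ∀ β θ : FIC, BaseH n β → β ≤ θ → ∀ (k : ℕ) (a b a' b' : ℕ → ℕ) (i : ℕ), Vd k a b i →
    Vd k a' b' i → Sh k a a' → Sh k b b' → ∀ s s' : Stt, Vs a b i s → Vs a b i s' →
      (Tr θ k a b i s s' ↔ Tr θ k a' b' i s s')

/-- SWT -/
def SwtStmt (n : ℕ) : Prop :=
  ∀ β θ : FIC, BaseH n β → β ≤ θ → ∀ (k : ℕ) (a b : ℕ → ℕ) (i : ℕ), Vd k a b i →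
    Vd k b a i ∧ ∀ s s' : Stt, Vs a b i s → Vs a b i s' →
      Vs b a i s.sw ∧ (Tr θ k a b i s s' ↔ Tr θ k b a i s.sw s'.sw)

/-- ALL -/
def AllStmt (n : ℕ) : Prop :=
  ∀ β θ : FIC, BaseH n β → β ≤ θ → ∀ (k : ℕ) (a b : ℕ → ℕ) (i : ℕ), Vd k a b i →
    (2 ≤ a i ∨ 2 ≤ b i) → Tr θ k a b i Stt.xy Stt.yx →
      Tr θ k a b i Stt.xy Stt.ov ∧ Tr θ k a b i Stt.yx Stt.ov

/-- PS0 -/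
def Ps0Stmt (n : ℕ) : Prop :=
  ∀ β θ : FIC, BaseH n β → β ≤ θ → ∀ (k k' : ℕ) (f a b a' b' : ℕ → ℕ) (i : ℕ),
    BMap k k' f → Vd k a b i → Vd k' a' b' (f i) → Dm k k' f a a' → Dm k k' f b b' →
      (∀ j ≤ k, f j = f i → j ≠ i → a j = 0 ∧ b j = 0) → (a i = 1 ↔ a' (f i) = 1) →
        (b i = 1 ↔ b' (f i) = 1) → ∀ s s' : Stt, Vs a b i s → Vs a b i s' →
          Tr θ k a b i s s' → Tr θ k' a' b' (f i) s s'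

/-- PSL -/
def PslStmt (n : ℕ) : Prop :=
  ∀ β θ : FIC, BaseH n β → β ≤ θ → ∀ (k k' : ℕ) (f a b a' b' : ℕ → ℕ) (i : ℕ),
    BMap k k' f → Vd k a b i → Vd k' a' b' (f i) → Dm k k' f a a' → Dm k k' f b b' →
      (∀ j ≤ k, f j = f i → j ≠ i → a j = 0 ∧ (j < i ∨ b j = 0)) → (a i = 1 ↔ a' (f i) = 1) →
        2 ≤ b i → 2 ≤ b' (f i) →
          Tr θ k a b i Stt.yx Stt.ov → Tr θ k' a' b' (f i) Stt.yx Stt.ov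

/-- PSR -/
def PsrStmt (n : ℕ) : Prop :=
  ∀ β θ : FIC, BaseH n β → β ≤ θ → ∀ (k k' : ℕ) (f a b a' b' : ℕ → ℕ) (i : ℕ),
    BMap k k' f → Vd k a b i → Vd k' a' b' (f i) → Dm k k' f a a' → Dm k k' f b b' →
      (∀ j ≤ k, f j = f i → j ≠ i → a j = 0 ∧ (i < j ∨ b j = 0)) → (a i = 1 ↔ a' (f i) = 1) →
        2 ≤ b i → 2 ≤ b' (f i) →
          Tr θ k a b i Stt.xy Stt.ov → Tr θ k' a' b' (f i) Stt.xy Stt.ov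

/-- ABI -/
def AbiStmt (n : ℕ) : Prop :=
  ∀ β θ : FIC, BaseH n β → β ≤ θ → ∀ (k : ℕ) (a b : ℕ → ℕ) (i : ℕ), Vd k a b i →
    ∀ j ≤ k, Ab n (FC.ofFIC θ) k a j → (j = i ∨ b j = 0) →
      Vd k (ad n a j) b i ∧ ∀ s : Stt, Vs a b i s →
        RR θ (asm k (W a b i s)) (asm k (W (ad n a j) b i s))

/-- ABJ -/
def AbjStmt (n : ℕ) : Prop :=
  ∀ β θ : FIC, BaseH n β → β ≤ θ → ∀ (k : ℕ) (a b : ℕ → ℕ) (i : ℕ), Vd k a b i →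
    ∀ j ≤ k, Ab n (FC.ofFIC θ) k b j → (j = i ∨ a j = 0) →
      Vd k a (ad n b j) i ∧ ∀ s : Stt, Vs a b i s →
        RR θ (asm k (W a b i s)) (asm k (W a (ad n b j) i s))

/-- ABO -/
def AboStmt (n : ℕ) : Prop :=
  ∀ β θ : FIC, BaseH n β → β ≤ θ → ∀ (k : ℕ) (a b : ℕ → ℕ) (i : ℕ), Vd k a b i →
    ∀ j ≤ k, j ≠ i → ((b j ≠ 0 ∧ Ab n (FC.ofFIC θ) k a j) ∨ (a j ≠ 0 ∧ Ab n (FC.ofFIC θ) k b j)) →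
      ∀ s s' : Stt, Vs a b i s → Vs a b i s' → Tr θ k a b i s s'

/-- NRX -/
def NrxStmt (n : ℕ) : Prop :=
  ∀ β : FIC, BaseH n β → ∀ (k : ℕ) (a b : ℕ → ℕ) (i : ℕ), Vd k a b i →
    ∃ a' b' : ℕ → ℕ, Vd k a' b' i ∧ Nrm n (FC.ofFIC β) k a' ∧ Nrm n (FC.ofFIC β) k b' ∧
      (∀ j, a j ≤ a' j ∧ b j ≤ b' j ∧ (a j = 0 → a' j = 0) ∧ (b j = 0 → b' j = 0)) ∧
      ∀ θ : FIC, β ≤ θ → ∀ s s' : Stt, Vs a b i s → Vs a b i s' →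
        (Tr θ k a b i s s' ↔ Tr θ k a' b' i s s')

/-- EDV -/
def EdvStmt (n : ℕ) : Prop :=
  ∀ β : FIC, BaseH n β →
    (∀ (k : ℕ) (a b : ℕ → ℕ) (i : ℕ), Vd k a b i → Nrm n (FC.ofFIC β) k a →
      Nrm n (FC.ofFIC β) k b → (a i = 1 → b i = 1 → Eg β k a b i Stt.xy Stt.yx) ∧
      (2 ≤ b i → Eg β k a b i Stt.xy Stt.ov ∧ Eg β k a b i Stt.yx Stt.ov)) → EdgeN n β

/-- JPX -/
def JpxStmt (n : ℕ) : Prop :=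
  ∀ β : FIC, BaseH n β → ∀ (k : ℕ) (a b : ℕ → ℕ) (i : ℕ) (F : ℕ → Prop), Vd k a b i →
    (∀ j ≤ k, F j → 2 ≤ b j) → ∀ s s' : Stt,
      ((a i = 1 ∧ b i = 1 ∧ s = Stt.xy ∧ s' = Stt.yx) ∨
        (F i ∧ s = Stt.xy ∧ s' = Stt.ov) ∨ (F i ∧ s = Stt.yx ∧ s' = Stt.ov)) →
      (∀ θ : FIC, β ≤ θ → NC2 θ → ¬ Tr θ k a b i s s' →
        (∀ j ≤ k, ¬ Ab n (FC.ofFIC θ) k a j) ∧
          (∀ j ≤ k, ¬ F j → ¬ Ab n (FC.ofFIC θ) k b j)) →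
        JPp β (asm k (W a b i s), asm k (W a b i s'))

/-- LT2 -/
def Lt2Stmt (n : ℕ) : Prop :=
  ∀ R : FC, LR n R → ∀ (k : ℕ) (a : ℕ → ℕ) (u v : ℕ), LL2 k a u v →
    ((∃ j ≤ k, Ab n R k a j) → Has n R (Bit.J 2)) ∧ (Has n R (Bit.J 2) → Ab n R k a v)

/-- LT3 -/
def Lt3Stmt (n : ℕ) : Prop :=
  ∀ R : FC, LR n R → Has n R (Bit.J 3) → ∀ (k : ℕ) (a : ℕ → ℕ), Nrm n R k a →
    2 ≤ deg k a → (∀ u v, ¬ LL2 k a u v) → ∀ i ≤ k, a i = 1 → ∃ m, i < m ∧ m ≤ k ∧ 2 ≤ a m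

/-- LT4 -/
def Lt4Stmt (n : ℕ) : Prop :=
  ∀ R : FC, LR n R → ∀ (k : ℕ) (a : ℕ → ℕ), Nrm n R k a → 2 ≤ deg k a →
    ∀ j ≤ k, a j ≠ 0 →
    ((∃ p ≤ j, 2 ≤ a p) → 2 ≤ a j) ∧
    (Has n R (Bit.J 3) → 2 ≤ lb a j → 2 ≤ a j) ∧
    (Has n R (Bit.J 3) → Has n R (Bit.D 1) → (∀ u v, ¬ LL2 k a u v) → 1 ≤ lb a j → 2 ≤ a j)

/-- JPC -/
def JpcStmt (n : ℕ) : Prop :=
  ∀ β : FIC, BaseH n β → ∀ (k : ℕ) (a b : ℕ → ℕ) (i u v : ℕ) (F : ℕ → Prop),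
    Vd k a b i → LL2 k a u v → (∀ j ≤ k, F j → 2 ≤ b j) → ∀ s s' : Stt,
      ((a i = 1 ∧ b i = 1 ∧ s = Stt.xy ∧ s' = Stt.yx) ∨
        (F i ∧ s = Stt.xy ∧ s' = Stt.ov) ∨ (F i ∧ s = Stt.yx ∧ s' = Stt.ov)) →
      (∀ θ : FIC, β ≤ θ → NC2 θ → Has n (FC.ofFIC θ) (Bit.J 2) → Tr θ k a b i s s') →
      (∀ θ : FIC, β ≤ θ → NC2 θ → ∀ j ≤ k, ¬ F j → Ab n (FC.ofFIC θ) k b j →
        Tr θ k a b i s s') →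
        JPp β (asm k (W a b i s), asm k (W a b i s'))

/-- PIN -/
def PinStmt (n : ℕ) : Prop :=
  ∀ β θ : FIC, BaseH n β → β ≤ θ → ∀ (k0 k : ℕ) (f a0 b0 a b : ℕ → ℕ) (i0 : ℕ),
    (∀ j < k0, f j < f (j + 1)) → f k0 ≤ k → Vd k0 a0 b0 i0 → Vd k a b (f i0) →
      (∀ j ≤ k0, (a0 j ≠ 0 → a (f j) ≠ 0) ∧ (2 ≤ a0 j → 2 ≤ a (f j)) ∧
        (b0 j ≠ 0 → b (f j) ≠ 0) ∧ (2 ≤ b0 j → 2 ≤ b (f j))) →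
        (a0 i0 = 1 ↔ a (f i0) = 1) → (b0 i0 = 1 ↔ b (f i0) = 1) →
          ∀ s s' : Stt, Vs a0 b0 i0 s → Vs a0 b0 i0 s' →
            Tr θ k0 a0 b0 i0 s s' → Tr θ k a b (f i0) s s'

/-- KHH -/
def KhhStmt (n : ℕ) : Prop :=
  ∀ β : FIC, S8 n β → ∀ (k : ℕ) (a b : ℕ → ℕ) (i : ℕ), Vd k a b i → 2 ≤ a i → 2 ≤ b i →
    TrA β k a b i

/-- KK1 -/
def Kk1Stmt (n : ℕ) : Prop :=
  ∀ β : FIC, S8 n β → ∀ (k : ℕ) (a b : ℕ → ℕ) (i : ℕ), Vd k a b i →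
    ((2 ≤ a i ∧ ∃ m, i < m ∧ m ≤ k ∧ 2 ≤ b m) ∨ (2 ≤ b i ∧ ∃ m, i < m ∧ m ≤ k ∧ 2 ≤ a m)) →
      TrA β k a b i

/-- KK2 -/
def Kk2Stmt (n : ℕ) : Prop :=
  ∀ β : FIC, S8 n β → ∀ (k : ℕ) (a b : ℕ → ℕ) (i : ℕ), Vd k a b i → a i = 1 → b i = 1 →
    (∃ m, i < m ∧ m ≤ k ∧ 2 ≤ a m) → (∃ n, i < n ∧ n ≤ k ∧ 2 ≤ b n) → TrA β k a b i

/-- LHR -/
def LhrStmt (n : ℕ) : Prop :=
  ∀ β : FIC, S8 n β → ∀ (k : ℕ) (a b : ℕ → ℕ) (i p : ℕ), Vd k a b i → a i = 1 → 2 ≤ b i →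
    i < p → p ≤ k → a p ≠ 0 → Tr β k a b i Stt.xy Stt.ov ∧
      ((∃ m, i < m ∧ m ≤ k ∧ 2 ≤ b m) → TrA β k a b i)

/-- LHL -/
def LhlStmt (n : ℕ) : Prop :=
  ∀ β : FIC, S8 n β → ∀ (k : ℕ) (a b : ℕ → ℕ) (i p : ℕ), Vd k a b i → a i = 1 → 2 ≤ b i →
    p < i → a p ≠ 0 → Tr β k a b i Stt.xy Stt.ov ∧
      ((∃ m, i < m ∧ m ≤ k ∧ 2 ≤ b m) → TrA β k a b i) ∧
      ((∃ q, q < p ∧ 2 ≤ b q) → TrA β k a b i)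

/-- KK9 -/
def Kk9Stmt (n : ℕ) : Prop :=
  ∀ β : FIC, H4 n β → ∀ (k : ℕ) (a b : ℕ → ℕ) (i m p z : ℕ), Vd k a b i → a i = 1 → b i = 1 →
    i < m → m < p → p < z → z ≤ k → 2 ≤ b m → a p ≠ 0 → 2 ≤ b z → TrA β k a b i

/-- BJ4 -/
def Bj4Stmt (n : ℕ) : Prop := ∀ β : FIC, H4 n β → S8J n β

/-- BJ5 -/
def Bj5Stmt (n : ℕ) : Prop := ∀ β : FIC, H5 n β → S8J n β ∧ Has n (FC.ofFIC β) (Bit.D 1)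

/-- HVJ -/
def HvjStmt (n : ℕ) : Prop :=
  ∀ β : FIC, BaseH n β → ∀ (k : ℕ) (a b : ℕ → ℕ) (i q : ℕ), Vd k a b i → q ≤ i → 2 ≤ b q →
    Vd k a (ad n b i) i ∧ ∀ θ : FIC, β ≤ θ → ∀ s s' : Stt, Vs a b i s → Vs a b i s' →
      (Tr θ k a b i s s' ↔ Tr θ k a (ad n b i) i s s')

/-- J2S -/
def J2sStmt (n : ℕ) : Prop :=
  ∀ β θ : FIC, S8 n β → β ≤ θ → Has n (FC.ofFIC θ) (Bit.J 2) → ∀ (k : ℕ) (a b : ℕ → ℕ) (i u v : ℕ),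
    Vd k a b i → LL2 k a u v →
      ((∃ u' v', LL2 k b u' v') ∨ 2 ≤ b i ∨ (b i = 1 ∧ ∃ m, i < m ∧ m ≤ k ∧ 2 ≤ b m)) →
        TrA θ k a b i

/-- TLH -/
def TlhStmt (n : ℕ) : Prop :=
  ∀ β : FIC, H3 n β → ∀ (k : ℕ) (a b : ℕ → ℕ) (i : ℕ), Vd k a b i → 2 ≤ b i → TrA β k a b i

/-- TLL -/
def TllStmt (n : ℕ) : Prop :=
  ∀ β : FIC, H3 n β → ∀ (k : ℕ) (a b : ℕ → ℕ) (i m : ℕ), Vd k a b i → a i = 1 → b i = 1 →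
    i < m → m ≤ k → 2 ≤ b m → TrA β k a b i

/-- TJP -/
def TjpStmt (n : ℕ) : Prop :=
  ∀ β : FIC, H3 n β → ∀ (k : ℕ) (a b : ℕ → ℕ) (i : ℕ), Vd k a b i → (∀ j ≤ k, a j ≤ 1) →
    (∀ j ≤ k, b j ≤ 1) → JPp β (asm k (W a b i Stt.xy), asm k (W a b i Stt.yx))

/-- TEP -/
def TepStmt (n : ℕ) : Prop := ∀ β : FIC, H3 n β → EdgeN n β

/-- TDI -/
def TdiStmt (n : ℕ) : Prop := ∀ β : FIC, H3 n β → DistF β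

/-- U10 -/
def U10Stmt (n : ℕ) : Prop :=
  ∀ β θ : FIC, BaseH n β → β ≤ θ → ∀ (k : ℕ) (a b : ℕ → ℕ) (i p : ℕ), Vd k a b i → LL2 k a i p →
    b i = 1 → (∀ j < i, b j = 0) → (∃ m, i < m ∧ m < p ∧ 2 ≤ b m) →
      (∀ j, p < j → j ≤ k → b j = 0) →
        (Tr θ k a b i Stt.xy Stt.yx ↔ Ce θ 2 [1, 0, 1] [1, 2, 0] 0 Stt.xy Stt.yx)

/-- U01 -/
def U01Stmt (n : ℕ) : Prop :=
  ∀ β θ : FIC, BaseH n β → β ≤ θ → ∀ (k : ℕ) (a b : ℕ → ℕ) (i p : ℕ), Vd k a b i → LL2 k a i p →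
    b i = 1 → (∀ j < i, b j = 0) → (∀ j, i < j → j < p → b j = 0) →
      (∃ z, p < z ∧ z ≤ k ∧ 2 ≤ b z) →
        (Tr θ k a b i Stt.xy Stt.yx ↔ Ce θ 2 [1, 1, 0] [1, 0, 2] 0 Stt.xy Stt.yx)

/-- U11 -/
def U11Stmt (n : ℕ) : Prop :=
  ∀ β θ : FIC, BaseH n β → β ≤ θ → ∀ (k : ℕ) (a b : ℕ → ℕ) (i p : ℕ), Vd k a b i → LL2 k a i p →
    b i = 1 → (∀ j < i, b j = 0) → (∃ m, i < m ∧ m < p ∧ 2 ≤ b m) →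
      (∃ z, p < z ∧ z ≤ k ∧ 2 ≤ b z) →
        (Tr θ k a b i Stt.xy Stt.yx ↔ Ce θ 3 [1, 0, 1, 0] [1, 2, 0, 2] 0 Stt.xy Stt.yx)

/-- U1L -/
def U1lStmt (n : ℕ) : Prop :=
  ∀ β θ : FIC, BaseH n β → β ≤ θ → ∀ (k : ℕ) (a b : ℕ → ℕ) (i p : ℕ), Vd k a b i → LL2 k a i p →
    b i = 1 → (∀ j < i, b j = 0) →
      (∃ m, i < m ∧ m < p ∧ b m = 1 ∧ ∀ j, i < j → j < p → j ≠ m → b j = 0) →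
      (∃ z, p < z ∧ z ≤ k ∧ 2 ≤ b z) →
        (Tr θ k a b i Stt.xy Stt.yx ↔ Ce θ 3 [1, 0, 1, 0] [1, 1, 0, 2] 0 Stt.xy Stt.yx)

/-- UEV -/
def UevStmt (n : ℕ) : Prop :=
  ∀ β θ : FIC, BaseH n β → β ≤ θ → ∀ (k : ℕ) (a b : ℕ → ℕ) (i p : ℕ), Vd k a b i → LL2 k a p i →
    b i = 1 → (∀ j < i, b j = 0) → (∃ m, i < m ∧ m ≤ k ∧ 2 ≤ b m) →
        (Tr θ k a b i Stt.xy Stt.yx ↔ Ce θ 2 [1, 1, 0] [0, 1, 2] 1 Stt.xy Stt.yx)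

/-- V10 -/
def V10Stmt (n : ℕ) : Prop :=
  ∀ β θ : FIC, BaseH n β → β ≤ θ → ∀ (k : ℕ) (a b : ℕ → ℕ) (i p : ℕ), Vd k a b i → LL2 k a i p →
    b i = 1 → (∃ q < i, b q = 1 ∧ ∀ j < i, j ≠ q → b j = 0) → (∃ m, i < m ∧ m < p ∧ 2 ≤ b m) →
      (∀ j, p < j → j ≤ k → b j = 0) →
        (Tr θ k a b i Stt.xy Stt.yx ↔ Ce θ 3 [0, 1, 0, 1] [1, 1, 2, 0] 1 Stt.xy Stt.yx)

/-- V01 -/
def V01Stmt (n : ℕ) : Prop :=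
  ∀ β θ : FIC, BaseH n β → β ≤ θ → ∀ (k : ℕ) (a b : ℕ → ℕ) (i p : ℕ), Vd k a b i → LL2 k a i p →
    b i = 1 → (∃ q < i, b q = 1 ∧ ∀ j < i, j ≠ q → b j = 0) → (∀ j, i < j → j < p → b j = 0) →
      (∃ z, p < z ∧ z ≤ k ∧ 2 ≤ b z) →
        (Tr θ k a b i Stt.xy Stt.yx ↔ Ce θ 3 [0, 1, 1, 0] [1, 1, 0, 2] 1 Stt.xy Stt.yx)

/-- VP1 -/
def Vp1Stmt (n : ℕ) : Prop :=
  ∀ β θ : FIC, BaseH n β → β ≤ θ → ∀ (k : ℕ) (a b : ℕ → ℕ) (i p : ℕ), Vd k a b i → LL2 k a p i →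
    b i = 1 → (∃ q, p < q ∧ q < i ∧ b q = 1 ∧ ∀ j < i, j ≠ q → b j = 0) →
      (∃ m, i < m ∧ m ≤ k ∧ 2 ≤ b m) →
        (Tr θ k a b i Stt.xy Stt.yx ↔ Ce θ 3 [1, 0, 1, 0] [0, 1, 1, 2] 2 Stt.xy Stt.yx)

/-- VP2 -/
def Vp2Stmt (n : ℕ) : Prop :=
  ∀ β θ : FIC, BaseH n β → β ≤ θ → ∀ (k : ℕ) (a b : ℕ → ℕ) (i p : ℕ), Vd k a b i → LL2 k a p i →
    b i = 1 → (∃ q, q < p ∧ b q = 1 ∧ ∀ j < i, j ≠ q → b j = 0) →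
      (∃ m, i < m ∧ m ≤ k ∧ 2 ≤ b m) →
        (Tr θ k a b i Stt.xy Stt.yx ↔ Ce θ 3 [0, 1, 1, 0] [1, 0, 1, 2] 2 Stt.xy Stt.yx)

/-- UX1 -/
def Ux1Stmt (n : ℕ) : Prop :=
  ∀ β θ : FIC, BaseH n β → β ≤ θ → ∀ (k : ℕ) (a b : ℕ → ℕ) (i p : ℕ), Vd k a b i → LL2 k a i p →
    2 ≤ b i → (∀ j, i < j → j ≤ k → b j = 0) →
        (Tr θ k a b i Stt.yx Stt.ov ↔ Ce θ 1 [1, 1] [2, 0] 0 Stt.yx Stt.ov)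

/-- UX2 -/
def Ux2Stmt (n : ℕ) : Prop :=
  ∀ β θ : FIC, BaseH n β → β ≤ θ → ∀ (k : ℕ) (a b : ℕ → ℕ) (i p : ℕ), Vd k a b i → LL2 k a p i →
    2 ≤ b i → (∀ j < p, b j = 0) → (∀ j, i < j → j ≤ k → b j = 0) →
        (Tr θ k a b i Stt.yx Stt.ov ↔ Ce θ 1 [1, 1] [0, 2] 1 Stt.yx Stt.ov)

/-- UX3 -/
def Ux3Stmt (n : ℕ) : Prop :=
  ∀ β θ : FIC, BaseH n β → β ≤ θ → ∀ (k : ℕ) (a b : ℕ → ℕ) (i p : ℕ), Vd k a b i → LL2 k a p i →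
    2 ≤ b i → (∃ q < p, b q = 1 ∧ ∀ j < p, j ≠ q → b j = 0) → (∀ j, i < j → j ≤ k → b j = 0) →
        (Tr θ k a b i Stt.yx Stt.ov ↔ Ce θ 2 [0, 1, 1] [1, 0, 2] 2 Stt.yx Stt.ov)

/-- UX4 -/
def Ux4Stmt (n : ℕ) : Prop :=
  ∀ β θ : FIC, BaseH n β → β ≤ θ → ∀ (k : ℕ) (a b : ℕ → ℕ) (i p : ℕ), Vd k a b i → LL2 k a p i →
    2 ≤ b i →
      (∃ q q', q < q' ∧ q' < p ∧ b q = 1 ∧ b q' = 1 ∧ ∀ j < p, j ≠ q → j ≠ q' → b j = 0) →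
      (∀ j, i < j → j ≤ k → b j = 0) →
        (Tr θ k a b i Stt.yx Stt.ov ↔ Ce θ 3 [0, 0, 1, 1] [1, 1, 0, 2] 3 Stt.yx Stt.ov)

/-- JLL -/
def JllStmt (n : ℕ) : Prop :=
  ∀ β : FIC, S8 n β → ∀ (k : ℕ) (a b : ℕ → ℕ) (i u v u' v' : ℕ), Vd k a b i → LL2 k a u v →
    LL2 k b u' v' → JPp β (asm k (W a b i Stt.xy), asm k (W a b i Stt.yx))

/-- J10 -/
def J10Stmt (n : ℕ) : Prop := ∀ β : FIC, S8 n β → JPp β (ce 2 [1, 0, 1] [1, 2, 0] 0 Stt.xy Stt.yx)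

/-- J01 -/
def J01Stmt (n : ℕ) : Prop := ∀ β : FIC, S8 n β → JPp β (ce 2 [1, 1, 0] [1, 0, 2] 0 Stt.xy Stt.yx)

/-- J11 -/
def J11Stmt (n : ℕ) : Prop := ∀ β : FIC, S8 n β → JPp β (ce 3 [1, 0, 1, 0] [1, 2, 0, 2] 0 Stt.xy Stt.yx)

/-- J1L -/
def J1lStmt (n : ℕ) : Prop := ∀ β : FIC, H4 n β → JPp β (ce 3 [1, 0, 1, 0] [1, 1, 0, 2] 0 Stt.xy Stt.yx)

/-- JEV -/
def JevStmt (n : ℕ) : Prop := ∀ β : FIC, S8 n β → JPp β (ce 2 [1, 1, 0] [0, 1, 2] 1 Stt.xy Stt.yx)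

/-- K10 -/
def K10Stmt (n : ℕ) : Prop := ∀ β : FIC, S8 n β → JPp β (ce 3 [0, 1, 0, 1] [1, 1, 2, 0] 1 Stt.xy Stt.yx)

/-- K01 -/
def K01Stmt (n : ℕ) : Prop := ∀ β : FIC, S8 n β → JPp β (ce 3 [0, 1, 1, 0] [1, 1, 0, 2] 1 Stt.xy Stt.yx)

/-- KP1 -/
def Kp1Stmt (n : ℕ) : Prop := ∀ β : FIC, S8 n β → JPp β (ce 3 [1, 0, 1, 0] [0, 1, 1, 2] 2 Stt.xy Stt.yx)

/-- KP2 -/
def Kp2Stmt (n : ℕ) : Prop := ∀ β : FIC, S8 n β → JPp β (ce 3 [0, 1, 1, 0] [1, 0, 1, 2] 2 Stt.xy Stt.yx)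

/-- JX1 -/
def Jx1Stmt (n : ℕ) : Prop := ∀ β : FIC, S8 n β → JPp β (ce 1 [1, 1] [2, 0] 0 Stt.yx Stt.ov)

/-- JX2 -/
def Jx2Stmt (n : ℕ) : Prop := ∀ β : FIC, S8 n β → JPp β (ce 1 [1, 1] [0, 2] 1 Stt.yx Stt.ov)

/-- JX3 -/
def Jx3Stmt (n : ℕ) : Prop := ∀ β : FIC, S8 n β → JPp β (ce 2 [0, 1, 1] [1, 0, 2] 2 Stt.yx Stt.ov)

/-- JX4 -/
def Jx4Stmt (n : ℕ) : Prop := ∀ β : FIC, S8 n β → JPp β (ce 3 [0, 0, 1, 1] [1, 1, 0, 2] 3 Stt.yx Stt.ov)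

/-- EHH -/
def EhhStmt (n : ℕ) : Prop :=
  ∀ β : FIC, S8 n β → ∀ (k : ℕ) (a b : ℕ → ℕ) (i : ℕ), Vd k a b i → 2 ≤ a i → 2 ≤ b i →
    Eg2 β k a b i

/-- ENL -/
def EnlStmt (n : ℕ) : Prop :=
  ∀ β : FIC, S8J n β → ∀ (k : ℕ) (a b : ℕ → ℕ) (i : ℕ), Vd k a b i → Nrm n (FC.ofFIC β) k a →
    (∀ u v, ¬ LL2 k a u v) → a i = 1 → 2 ≤ b i → Eg2 β k a b i

/-- ERI -/
def EriStmt (n : ℕ) : Prop :=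
  ∀ β : FIC, S8 n β → ∀ (k : ℕ) (a b : ℕ → ℕ) (i p : ℕ), Vd k a b i → Nrm n (FC.ofFIC β) k b →
    LL2 k a i p → 2 ≤ b i → Eg2 β k a b i

/-- EL4 -/
def El4Stmt (n : ℕ) : Prop :=
  ∀ β : FIC, H4 n β → ∀ (k : ℕ) (a b : ℕ → ℕ) (i p : ℕ), Vd k a b i → Nrm n (FC.ofFIC β) k b →
    LL2 k a p i → 2 ≤ b i → Eg2 β k a b i

/-- EL5 -/
def El5Stmt (n : ℕ) : Prop :=
  ∀ β : FIC, H5 n β → ∀ (k : ℕ) (a b : ℕ → ℕ) (i p : ℕ), Vd k a b i → Nrm n (FC.ofFIC β) k b →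
    LL2 k a p i → 2 ≤ b i → Eg2 β k a b i

/-- ENN -/
def EnnStmt (n : ℕ) : Prop :=
  ∀ β : FIC, S8J n β → ∀ (k : ℕ) (a b : ℕ → ℕ) (i : ℕ), Vd k a b i → Nrm n (FC.ofFIC β) k a →
    Nrm n (FC.ofFIC β) k b → (∀ u v, ¬ LL2 k a u v) → (∀ u v, ¬ LL2 k b u v) → a i = 1 → b i = 1 →
      Eg β k a b i Stt.xy Stt.yx

/-- EG4 -/
def Eg4Stmt (n : ℕ) : Prop :=
  ∀ β : FIC, H4 n β → ∀ (k : ℕ) (a b : ℕ → ℕ) (i p : ℕ), Vd k a b i → Nrm n (FC.ofFIC β) k b →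
    LL2 k a i p → (∀ u v, ¬ LL2 k b u v) → b i = 1 → Eg β k a b i Stt.xy Stt.yx

/-- EG5 -/
def Eg5Stmt (n : ℕ) : Prop :=
  ∀ β : FIC, H5 n β → ∀ (k : ℕ) (a b : ℕ → ℕ) (i p : ℕ), Vd k a b i → Nrm n (FC.ofFIC β) k b →
    LL2 k a i p → (∀ u v, ¬ LL2 k b u v) → b i = 1 → Eg β k a b i Stt.xy Stt.yx

/-- EK4 -/
def Ek4Stmt (n : ℕ) : Prop :=
  ∀ β : FIC, H4 n β → ∀ (k : ℕ) (a b : ℕ → ℕ) (i p : ℕ), Vd k a b i → Nrm n (FC.ofFIC β) k b →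
    LL2 k a p i → (∀ u v, ¬ LL2 k b u v) → b i = 1 → Eg β k a b i Stt.xy Stt.yx

/-- EK5 -/
def Ek5Stmt (n : ℕ) : Prop :=
  ∀ β : FIC, H5 n β → ∀ (k : ℕ) (a b : ℕ → ℕ) (i p : ℕ), Vd k a b i → Nrm n (FC.ofFIC β) k b →
    LL2 k a p i → (∀ u v, ¬ LL2 k b u v) → b i = 1 → Eg β k a b i Stt.xy Stt.yx

/-- EDC -/
def EdcStmt (n : ℕ) : Prop :=
  ∀ β : FIC, S8J n β →
    (∀ (k : ℕ) (a b : ℕ → ℕ) (i p : ℕ), Vd k a b i → Nrm n (FC.ofFIC β) k b →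
      LL2 k a p i → 2 ≤ b i → Eg2 β k a b i) →
    (∀ (k : ℕ) (a b : ℕ → ℕ) (i p : ℕ), Vd k a b i → Nrm n (FC.ofFIC β) k b →
      LL2 k a i p → (∀ u v, ¬ LL2 k b u v) → b i = 1 → Eg β k a b i Stt.xy Stt.yx) →
    (∀ (k : ℕ) (a b : ℕ → ℕ) (i p : ℕ), Vd k a b i → Nrm n (FC.ofFIC β) k b →
      LL2 k a p i → (∀ u v, ¬ LL2 k b u v) → b i = 1 → Eg β k a b i Stt.xy Stt.yx) →
    EdgeN n β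

/-- DI4 -/
def Di4Stmt (n : ℕ) : Prop := ∀ β : FIC, H4 n β → DistF β

/-- DI5 -/
def Di5Stmt (n : ℕ) : Prop := ∀ β : FIC, H5 n β → DistF β

end Pool.Agent.MWHP.F
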