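import Pool.Agent.MWHP.StmtsP
import Pool.Agent.MWS.StmtsA
import Pool.Agent.MWS.StmtsB
import Pool.Agent.MWA.StmtsP

/-!
# Block MWHP, part N: the two letter principle for arbitrary period (rows)

Every row: file `Pool/Agent/HelperNN_MWHP/XXX.lean`, import `Pool.Agent.MWHP.StmtsN`, namespace
`Pool.Agent.MWHP.HNN`, theorem `xxx (hypotheses = rows in uses, in this order) : XxxStmt`.
Most rows are the period `n` twin of a row of `MWS/StmtsA.lean` or `MWS/StmtsB.lean` (name in
brackets; table mws, column path: adapt this file).  New: `INT` (interior occurrences are free, their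
number can be changed by multiples of `n`) replaces `Itr`; the types are compared with
`Eq2` / `EqT` (equal, or both `≥ 2` and congruent mod `n`) instead of `Sh` / `Shp`.
The statements of the rows LRNN, SATN, MASN, JPIN, TLMN are in `MWHP/StmtsP.lean`; their proofs are
described here at the end.
-/

namespace Pool.Agent.MWHP

open Pool.Agent.Helper14_MV Pool.Agent.Helper2_MV Pool.Agent.MVO Pool.Agent.MWL Pool.Agent.MWS
open Pool.Agent.MWA Pool.Agent.MWH

/-! ### interior occurrences -/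

/-- **INT** (uses nothing).  Interior occurrences of `x` are free, and their number can be changed
by multiples of `n`.
PROOF.  NORMAL FORM: for all `p`, `w` (with the hypothesis on `w`): `p ++ x :: (w ++ x :: q)` is related to
`p ++ x :: (replicate (w.count x) x ++ (w.filter (· ≠ x) ++ x :: q))`.  Induction on the length of `w`, for all
`p`.  `w = []`: equal.  `w = x :: w0`: the induction hypothesis for `p ++ [x]` and `w0` (associativity:
`p ++ x :: x :: (w0 ++ ..) = (p ++ [x]) ++ x :: (w0 ++ ..)`).  `w = c :: w0`, `c ≠ x`: if `x ∉ w0` then the count is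
`0` and the filter is `w`: equal.  If `w0 = a ++ x :: b`: `ItN.two` with `w := c :: a`, `w' := b`:
`p x (c a) x b x q ~ p x x (c a) b x q = (p ++ [x]) ++ x :: ((c :: a ++ b) ++ x :: q)`, and the list `c :: a ++ b` is
shorter than `w`: induction hypothesis (the counts of the letters of the whole word are unchanged).
NUMBER: for `m` and `f` (letters `≠ x`, multiple in the word): `p ++ x :: (replicate m x ++ (f ++ x :: q))` is
related to the same word with `m + n`: `ItN.one` with `w := replicate m x ++ f` gives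
`x^(n+1) x^m f`, and `replicate (n+1) x ++ (replicate m x ++ ..) = x :: (replicate (m + n) x ++ ..)`.  So (induction)
also for `m`, `m'` with `m ≡ m' [MOD n]` (the larger one is the smaller one plus a multiple of `n`:
`Nat.ModEq`, `Nat.modEq_iff_dvd'`).  The statement: normal forms of `w` and of `w1` (their filters agree,
so the letters `≠ x` of `w1` are multiple too). -/
def IntStmt : Prop :=
  ∀ (n : ℕ) (β : FIC), ItN n β → ∀ (p w w1 q : List ℕ) (x : ℕ),
    (∀ c ∈ w, c ≠ x → 2 ≤ (p ++ x :: (w ++ x :: q)).count c) →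
      w.filter (fun c => c ≠ x) = w1.filter (fun c => c ≠ x) → w.count x ≡ w1.count x [MOD n] →
        RR β (p ++ x :: (w ++ x :: q)) (p ++ x :: (w1 ++ x :: q))

/-- **RPN** [DBL] (uses INT).  An occurrence of a heavy letter may be replaced by `n m + 1`.
PROOF.  `asm k B = pre ++ B i ++ suf` (`asm_split`, `asm_update`); the letters of the block `i` are multiple in
the word (`Mlt`, `count_asm`).  If `x ∈ Q`: `Q = Q1 ++ x :: Q2`, INT with `w := Q1`,
`w1 := replicate (n * m) x ++ Q1` (between the occurrence and the `x` of `Q`).  If `x ∈ P`: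
`P = P1 ++ x :: P2`, INT with `w := P2`, `w1 := P2 ++ replicate (n * m) x` (between the `x` of `P` and the
occurrence).  One of the two holds because `2 ≤ (B i).count x`.  `replicate (n * m + 1) x` is
`x :: replicate (n * m) x` and `replicate (n * m) x ++ [x]`. -/
def RpnStmt : Prop :=
  ∀ (n : ℕ) (β : FIC), ItN n β → ∀ (k : ℕ) (B : ℕ → List ℕ), OkB k B → ∀ i ≤ k,
    ∀ (x : ℕ) (P Q : List ℕ) (m : ℕ), B i = P ++ x :: Q → 2 ≤ (B i).count x →
      RR β (asm k B) (asm k (Function.update B i (P ++ (List.replicate (n * m + 1) x ++ Q))))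

/-- **DBN** [DBA] (uses MWS.BLR, RPN).  The same in all blocks at once.
PROOF.  As DBA: every family `if j < m then B1 j else B j` satisfies `OkB` (the same letters, at least the
counts of `B`); the step is RPN (or equality).  `OkB k B1` the same. -/
def DbnStmt : Prop :=
  ∀ (n : ℕ) (β : FIC), ItN n β → ∀ (k : ℕ) (B B1 : ℕ → List ℕ), OkB k B →
    (∀ j ≤ k, B1 j = B j ∨ ∃ (x : ℕ) (P Q : List ℕ) (m : ℕ), 2 ≤ (B j).count x ∧
      B j = P ++ x :: Q ∧ B1 j = P ++ (List.replicate (n * m + 1) x ++ Q)) →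
      OkB k B1 ∧ RR β (asm k B) (asm k B1)

/-- **FRN** [FRE] (uses INT).  The free exchanges.
PROOF.  Write the word as `p ++ A ++ x :: y :: (D ++ q)` (`asm_split`, `asm_update`); all letters of the block
are multiple in the word, and they stay multiple in all words below.  `n ≥ 1`.
(1) `x ∈ D`, `y ∈ D`.  INT for `x` (between the first `x` and an `x` of `D`): `A x y D ~ A x y x^n D`.  INT for `y`
(between the `y` and a `y` of `D`, `w = x^n D1`, `w1 = x ++ y ++ x^(n-1) ++ y^(n-1) ++ D1`):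
`~ A x y x y x^(n-1) y^(n-1) D`.  `ic` (substitution `0 ↦ [x]`, `1 ↦ [y]`): `~ A y x y x x^(n-1) y^(n-1) D`.  INT for
`y` (between the first `y` and a `y` of `D`, remove `n` letters `y`): `~ A y x x^n D`.  INT for `x` (remove `n`):
`~ A y x D`.
(2) `x ∈ A`, `y ∈ A`.  INT for `y` (between a `y` of `A` and the `y`): `A x y D ~ A y^n x y D`.  INT for `x`
(between an `x` of `A` and the `x`; `w = A2 y^n`, `w1 = A2 x^(n-1) y^(n-1) x y`):
`~ A x^(n-1) y^(n-1) x y x y D`.  `ic`: `~ A x^(n-1) y^(n-1) y x y x D`.  INT for `x` (between an `x` of `A` and the last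
`x`, remove `n`): `~ A y^(n+1) x D`.  INT for `y` (between a `y` of `A` and the last `y`, remove `n`): `~ A y x D`.
(3) `x ∈ A`, `x ∈ D`: INT for `x` between an `x` of `A = A1 x A2` and an `x` of `D = D1 x D2`: `w = A2 x y D1`,
`w1 = A2 y x D1`.  (4) `y ∈ A`, `y ∈ D`: the same with `y`. -/
def FrnStmt : Prop :=
  ∀ (n : ℕ) (β : FIC), 1 ≤ n → RR β [0, 1, 0, 1] [1, 0, 1, 0] → ItN n β → ∀ (k : ℕ)
    (C : ℕ → List ℕ), OkB k C → ∀ i ≤ k, ∀ (A D : List ℕ) (x y : ℕ), C i = A ++ x :: y :: D →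
      x ≠ y → ((x ∈ D ∧ y ∈ D) ∨ (x ∈ A ∧ y ∈ A) ∨ (x ∈ A ∧ x ∈ D) ∨ (y ∈ A ∧ y ∈ D)) →
        RR β (asm k C) (asm k (Function.update C i (A ++ y :: x :: D)))

/-- **RSN** (uses RPN).  Raise the numbers of occurrences to given congruent numbers.
PROOF.  Induction on `∑ j ∈ range (k+1), ∑ c ∈ (B j).toFinset, (N j c - (B j).count c)`.  If all counts agree with
`N` (letters which are not in `B j` have `N j c = 0` because of the first alternative) take `C = B`.
Otherwise `2 ≤ (B i).count x < N i x`, `N i x = (B i).count x + n m` with `m ≥ 1`; `B i = P ++ x :: Q`; RPN with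
this `m`; the new family `B1` has the count `N i x` of `x` in the block `i`, all other counts are the same,
so `OkB k B1` and the hypotheses hold for `B1` (the sum is smaller).  `Bef (B i) c d ↔ Bef (B1 i) c d` for
`c ≠ d`: copies of `x` next to an `x` do not matter (with sublists: `¬ Bef l c d` iff `[d, c] <+ l`; or from
`MWS.Bef`: a decomposition `P' ++ d :: Q'` of one list gives one of the other). -/
def RsnStmt : Prop :=
  ∀ (n : ℕ) (β : FIC), ItN n β → ∀ (k : ℕ) (B : ℕ → List ℕ) (N : ℕ → ℕ → ℕ), OkB k B →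
    (∀ j ≤ k, ∀ c, N j c = (B j).count c ∨
      (2 ≤ (B j).count c ∧ (B j).count c ≤ N j c ∧ (B j).count c ≡ N j c [MOD n])) →
      ∃ C : ℕ → List ℕ, OkB k C ∧ RR β (asm k B) (asm k C) ∧
        (∀ j ≤ k, ∀ c, (C j).count c = N j c) ∧
        ∀ j ≤ k, ∀ c d, c ≠ d → (Bef (B j) c d ↔ Bef (C j) c d)

/-! ### saturation and alignment -/

/-- **STN** [STA] (uses MVO.ONE, MWL.TRN, SATN).  Saturation.
PROOF.  As STA: SATN inserts `2 n ≥ 2` letters `x`. -/
def StnStmt : Prop :=
  ∀ (n : ℕ) (β θ : FIC), BasN n β → β ≤ θ → ∀ (k : ℕ) (B : ℕ → List ℕ), OkB k B →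
    ∃ B1 : ℕ → List ℕ, OkB k B1 ∧ MWS.Sub k B B1 ∧ RR θ (asm k B) (asm k B1) ∧
      (∀ j ≤ k, ∀ c, (B j).count c ≤ (B1 j).count c) ∧
      ∀ x, (∃ j ≤ k, x ∈ B j) → ∀ i ≤ k, Ab n (FC.ofFIC θ) k (ty B x) i → 2 ≤ (B1 i).count x

/-- **ALG** (uses MWS.CHK, DBN).  Align the residues of one letter.
PROOF.  Let `t = ty C x`.  For `j ≤ k` with `1 ≤ t j` write `C j = P j ++ x :: Q j`; if `t j = 0` let `P j = C j`,
`Q j = []`.  `d j := if 2 ≤ t j then (n - 1) * t j + 1 else 0`, `e j := t j + d j`, `e' j := a' j + d j`.  If `2 ≤ t j`: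
`e j = n * t j + 1` (`n ≥ 1`).  DBN (`m = t j` in the blocks with `2 ≤ t j`; equality in the others, where
`e j = t j ≤ 1`): `asm k C ~ asm k (P j ++ x^(e j) ++ Q j)` in `β`.  `L1 θ k e e'` (`FC.add` for `FC.ofFIC θ`, the
vector `d`).  CHK: `~ asm k (P j ++ x^(e' j) ++ Q j)` in `θ`; this is `C2`.  Its number of letters `x` in block `j`:
`t j = 0`: `a' j = 0` (`Sh`), so `0`; `t j = 1`: `a' j = 1`, so `1`; `2 ≤ t j`:
`a' j + (n-1) * t j + 1 + (t j - 1) = a' j + n * t j`, which is `≥ 2` and `≡ a' j`.  The other letters have the same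
counts, so `OkB k C2` and `Sub`. -/
def AlgStmt : Prop :=
  ∀ (n : ℕ) (β θ : FIC), BasN n β → β ≤ θ → ∀ (k : ℕ) (C : ℕ → List ℕ), OkB k C → ∀ (x : ℕ)
    (a' : ℕ → ℕ), NS k x → Sh k (ty C x) a' → L1 θ k (ty C x) a' →
      ∃ C2 : ℕ → List ℕ, OkB k C2 ∧ MWS.Sub k C C2 ∧ RR θ (asm k C) (asm k C2) ∧
        (∀ j ≤ k, ∀ c, c ≠ x → (C2 j).count c = (C j).count c) ∧ Eq2 n k (ty C2 x) a'

/-- **ALA** (uses ALG).  Align all letters.
PROOF.  For a list `L` of letters with `NS k x` prove by induction: there is `C2` with `OkB k C2`, `Sub k C C2`,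
`RR θ (asm k C) (asm k C2)`, `Eq2 n k (ty C2 x) (ty C' x)` for `x ∈ L`, and `(C2 j).count c = (C j).count c` for
`j ≤ k`, `c ∉ L`.  Step `x :: L`: let `C2` be the family for `L`; if `x ∈ L` nothing to do; otherwise
`ty C2 x = ty C x` on `0..k`, so `Sh` and `L1` (`FC.ext` / `asm` of equal vectors) hold for `C2`, and ALG for `C2`,
`x`, `a' = ty C' x`.  Take for `L` all letters of the blocks `0..k` of `C`.  A letter `c ∉ L` has count `0` in all
blocks of `C`, hence of `C2` and (by `Sh`) of `C'`. -/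
def AlaStmt : Prop :=
  ∀ (n : ℕ) (β θ : FIC), BasN n β → β ≤ θ → ∀ (k : ℕ) (C C' : ℕ → List ℕ), OkB k C → OkB k C' →
    (∀ x, NS k x → Sh k (ty C x) (ty C' x)) → (∀ x, NS k x → L1 θ k (ty C x) (ty C' x)) →
      ∃ C2 : ℕ → List ℕ, OkB k C2 ∧ MWS.Sub k C C2 ∧ EqT n k C2 C' ∧ RR θ (asm k C) (asm k C2)

/-- **SHN** [SHS] (uses MVO.ONE, MWL.TRN, MWL.KEY, MWA.NDQ, LRNN, STN, ALA).  Two words with related types
have saturations of the same types.
PROOF.  As SHS up to: `C`, `C'` from STN with `Sh k (ty C x) (ty C' x)` for all `x` with `NS k x` (KEY for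
period `n`; `ND` by NDQ, `BasN.cap`).  `L1 θ k (ty C x) (ty C' x)` by ONE (`L1 θ k (ty B x) (ty C x)` etc.).  Then ALA
for `C`, `C'`: `C2`.  The result is `C2`, `C'`. -/
def ShnStmt : Prop :=
  ∀ (n : ℕ) (β θ : FIC), BasN n β → β ≤ θ → NC2 θ → ∀ (k : ℕ) (B B' : ℕ → List ℕ), OkB k B →
    OkB k B' → (∀ x, NS k x → L1 θ k (ty B x) (ty B' x)) →
      ∃ C C' : ℕ → List ℕ, OkB k C ∧ OkB k C' ∧ MWS.Sub k B C ∧ MWS.Sub k B' C' ∧ EqT n k C C' ∧
        RR θ (asm k B) (asm k C) ∧ RR θ (asm k B') (asm k C')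

/-- **D2N** [D2F] (uses MVO.ONE, SHN).  PROOF.  As D2F. -/
def D2nStmt : Prop := ∀ (n : ℕ) (β : FIC), BasN n β → SWPn n β → D2 β

/-! ### the distributive law -/

/-- **NSN** [NSP] (uses nothing).  PROOF.  As NSP, with `CapP β` in place of CAP. -/
def NsnStmt : Prop :=
  ∀ β ρ σ : FIC, CapP β → β ≤ ρ → β ≤ σ → NC2 ρ → NC2 σ → NC2 (FIC.sup ρ σ)

/-- **MJN** [MJE] (uses NSN).  PROOF.  As MJE. -/
def MjnStmt : Prop := ∀ (n : ℕ) (β : FIC), CapP β → EdgeN n β → MJSn n β

/-- **MON** [MJO] (uses MVO.ONE, MWL.LAW, MWA.CHQ, MWA.NDQ, LRNN, SHN).  Reduction to the same types.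
PROOF.  As MJO, with LAW for period `n` (`LR n` by LRNN, `ND` by NDQ), CHQ for CHN, SHN for SHS. -/
def MonStmt : Prop := ∀ (n : ℕ) (β : FIC), BasN n β → MJSn n β → MJ2 β

/-- **DGC** [MWA.DGB] (uses MWA.HAP, MWA.CMN, MWA.MUX, MWA.MUY).  The law with `mu`.
PROOF.  Word for word as the row DGB of MWA (it uses `BsP n β` only for `1 ≤ n` and `x² ≈ x^(n+2)`). -/
def DgcStmt : Prop :=
  ∀ (n : ℕ) (β : FIC), 1 ≤ n → RR β [0, 0] (List.replicate (n + 2) 0) → CapP β →
    ∀ ρ σ : FIC, β ≤ ρ → β ≤ σ → ∀ u v : List ℕ,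
      RR (FIC.sup ρ σ) u v → RR mu u v → RR (FIC.sup (FIC.inf ρ mu) (FIC.inf σ mu)) u v

/-- **DGQ** [MWA.DGP] (uses MWA.MUX, MWA.DGA, DGC).  The degenerate cases.
PROOF.  Word for word as the row DGP of MWA with DGC for DGB. -/
def DgqStmt : Prop :=
  ∀ (n : ℕ) (β : FIC), 1 ≤ n → RR β [0, 0] (List.replicate (n + 2) 0) → CapP β → MWS.MJN β → MJ β

/-! ### the interface rows (statements in `MWHP/StmtsP.lean`)

**LRNN** [LRN] (uses nothing) : `LrnnStmt`.  PROOF.  `pos` is `BasN.pos`; `per`: `mw 0 (sg 0 m) = replicate m 0`;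
`rr`: `mw 1 (v2 2 m) = [0,0,2] ++ replicate m 0` (as in MWA.ORN).

**JPIN** [JPI] (uses MWA.CHQ) : `JpinStmt`.  PROOF.  As JPI, with CHQ (`CapP β` is `BasN.cap`) for CHN.

**SATN** [SAT] (uses MWL.TRN, MWL.ABS, LRNN, MWS.CHK, RPN, DBN) : `SatnStmt`.  PROOF.  Let `a = ty B x`.
If `2 ≤ a i` (then `x ∈ B i`, so `P = P' ++ [x]`): RPN with `m = 2` at this occurrence:
`P' ++ (x^(2n+1) ++ Q) = P ++ (x^(2n) ++ Q)`.  Let `a i ≤ 1`.  For `j ≤ k`, `j ≠ i`, with `1 ≤ a j` write
`B j = P j ++ x :: Q j` (first occurrence); if `a j = 0` let `P j = B j`, `Q j = []`.  For `i`: if `a i = 0` let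
`P i = P`, `Q i = Q`; if `a i = 1`: `P = P' ++ [x]`, let `P i = P'`, `Q i = Q`.  Let `c j = n + 1` if `2 ≤ a j`, otherwise
`c j = a j`; `B1 j = P j ++ x^(c j) ++ Q j`: DBN (`m = 1`): `RR β (asm k B) (asm k B1)`.  `Ab n (FC.ofFIC θ) k c i`: with
`d j = (n-1) * a j + 1` if `2 ≤ a j` and `0` otherwise, `a + d` absorbs at `i` (TRN (2)), and
`Nq n k (a + d) c`: if `a j ≤ 1` the entries are equal, otherwise both are `≥ 2` (heavy) and
`a j + d j = n * a j + 1 ≡ n + 1`; so ABS (2) and TRN (1).  CHK: `asm k B1 ≈ asm k (P j ++ x^(c j + 2n [j = i]) ++ Q j)`.  In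
block `i` this is `P ++ x^(2n) ++ Q` (also if `a i = 1`: `P' ++ x^(1 + 2n) ++ Q`).  In the other blocks remove the
`n` letters: DBN for the family `Function.update B i (P ++ (x^(2n) ++ Q))` (it satisfies `OkB`: `x` is a multiple
letter by `2 ≤ deg k a`), backwards.

**MASN** [MAS] (uses MWS.BFX, MWS.LBB, FRN, RSN) : `MasnStmt`.  PROOF.  `N j c := max ((B j).count c) ((B' j).count c)`.
By `EqT` (for letters with `NS k c`; the others do not occur in the blocks) RSN can be used for `B, N` and for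
`B', N`: `C`, `C'` with the same counts in all blocks `0..k`.  `EqT n k B C`, `EqT n k B' C'`.  The rest is as in MAS
(LBB in every block; the words of the chain have the counts of `C`, so `OkB` and `EqT n k B _`; FRN for FRE).

**TLMN** [TLM] (uses MWS.GLD, DGQ, MWA.BLQ, MWS.TLP, D2N, MON, MJN) : `TlmnStmt`.  PROOF.  `D2 β` by D2N, `MJSn n β`
by MJN, `MJ2 β` by MON, `MJB β` by TLP, `MWS.MJN β` by BLQ, `MJ β` by DGQ, GLD.
-/

end Pool.Agent.MWHP
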