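import Pool.Agent.MWA.DefsP
import Pool.Agent.MWH.Defs

/-!
# Base (h) for arbitrary period `n` (definitions)

`x² ≈ x^(n+2)`, `x² t x ≈ x² t x^(n+1)`.  The two letter principle for period `n` (structure `BasN`,
conditions `SWPn`, `EdgeN`), the base (h) (`BaseHn`) and the systems h3, h4, h5.  States `Stt`, words `W`,
`Vd`, `Vs`, `Tr`, `LL2`, `vc` are those of `MWH/Defs.lean`.
-/

namespace Pool.Agent.MWHP

open Pool.Agent.Helper14_MV Pool.Agent.Helper2_MV Pool.Agent.MVO Pool.Agent.MWL Pool.Agent.MWS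
open Pool.Agent.MWA Pool.Agent.MWH

/-- equal entries, or both at least two and congruent -/
def Eq2 (n k : ℕ) (a b : ℕ → ℕ) : Prop :=
  ∀ j ≤ k, a j = b j ∨ (2 ≤ a j ∧ 2 ≤ b j ∧ a j ≡ b j [MOD n])

/-- the same types of all letters -/
def EqT (n k : ℕ) (B B' : ℕ → List ℕ) : Prop := ∀ c, NS k c → Eq2 n k (ty B c) (ty B' c)

/-- interior occurrences of a letter in a block are free; `x^n` can be inserted next to an
occurrence which is followed by another one in the block -/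
structure ItN (n : ℕ) (β : FIC) : Prop where
  one : ∀ (p w q : List ℕ) (x : ℕ), (∀ c ∈ w, 2 ≤ (p ++ x :: (w ++ x :: q)).count c) →
    RR β (p ++ x :: (w ++ x :: q)) (p ++ (List.replicate (n + 1) x ++ (w ++ x :: q)))
  two : ∀ (p w w' q : List ℕ) (x : ℕ),
    (∀ c, c ∈ w ∨ c ∈ w' → 2 ≤ (p ++ x :: (w ++ x :: (w' ++ x :: q))).count c) →
      RR β (p ++ x :: (w ++ x :: (w' ++ x :: q))) (p ++ x :: x :: (w ++ (w' ++ x :: q)))

/-- the hypotheses of the two letter principle for period `n` -/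
structure BasN (n : ℕ) (β : FIC) : Prop where
  pos : 1 ≤ n
  ap : RR β [0, 0] (List.replicate (n + 2) 0)
  rr : RR β [0, 0, 2, 0] ([0, 0, 2] ++ List.replicate (n + 1) 0)
  ic : RR β [0, 1, 0, 1] [1, 0, 1, 0]
  itn : ItN n β
  cap : CapP β

/-- words with the same types: the two letter restrictions decide -/
def SWPn (n : ℕ) (β : FIC) : Prop :=
  ∀ θ : FIC, β ≤ θ → NC2 θ → ∀ (k : ℕ) (B B' : ℕ → List ℕ), OkB k B → OkB k B' → EqT n k B B' →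
    (∀ x y, NS k x → NS k y → x ≠ y → RR θ (asm k (r2 x y B)) (asm k (r2 x y B'))) →
      RR θ (asm k B) (asm k B')

/-- two letter words of the same types are described by join prime edges -/
def EdgeN (n : ℕ) (β : FIC) : Prop :=
  ∀ (k : ℕ) (B B' : ℕ → List ℕ), OkB k B → OkB k B' → Two01 k B → Two01 k B' → EqT n k B B' →
    ∃ L : List (List ℕ × List ℕ), (∀ e ∈ L, JPp β e) ∧
      ∀ θ : FIC, β ≤ θ → NC2 θ → (RR θ (asm k B) (asm k B') ↔ ∀ e ∈ L, RR θ e.1 e.2)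

/-- the law for two letter words of the same types -/
def MJSn (n : ℕ) (β : FIC) : Prop :=
  ∀ ρ σ τ : FIC, β ≤ ρ → β ≤ σ → β ≤ τ → NC2 ρ → NC2 σ → NC2 τ → ∀ (k : ℕ) (B B' : ℕ → List ℕ),
    OkB k B → OkB k B' → Two01 k B → Two01 k B' → EqT n k B B' →
      RR (FIC.sup ρ σ) (asm k B) (asm k B') → RR τ (asm k B) (asm k B') →
        RR (psi ρ σ τ) (asm k B) (asm k B')

/-- the base (h) -/
structure BaseH (n : ℕ) (β : FIC) : Prop extends BasN n β where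
  cm2 : Cm2 β

/-- normal vectors: an entry which absorbs is at least two -/
def Nrm (n : ℕ) (R : FC) (k : ℕ) (a : ℕ → ℕ) : Prop := ∀ j ≤ k, a j ≠ 0 → Ab n R k a j → 2 ≤ a j

/-- the transitions which are used: `xy - yx` for two light letters, otherwise to or from `ov` -/
def Us (a b : ℕ → ℕ) (i : ℕ) (s s' : Stt) : Prop :=
  (a i = 1 ∧ b i = 1 ∧ ((s = Stt.xy ∧ s' = Stt.yx) ∨ (s = Stt.yx ∧ s' = Stt.xy))) ∨
    ((2 ≤ a i ∨ 2 ≤ b i) ∧ (s = Stt.ov ∨ s' = Stt.ov))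

/-- the eight identities of the systems h4 and h5 -/
structure S8 (n : ℕ) (β : FIC) : Prop extends BaseH n β where
  k1 : RR β [0, 0, 1, 2, 1, 1] [1, 0, 0, 2, 1, 1]
  k2 : RR β [0, 1, 2, 0, 0, 3, 1, 1] [1, 0, 2, 0, 0, 3, 1, 1]
  k3 : RR β [0, 1, 1, 2, 0, 3, 1, 1] [1, 1, 0, 2, 0, 3, 1, 1]
  k4 : RR β [0, 2, 0, 1, 1] [0, 2, 1, 0, 1]
  k5 : RR β [1, 2, 0, 0, 1, 3, 0, 0] [1, 2, 0, 1, 0, 3, 0, 0]
  k6 : RR β [0, 1, 1, 2, 0] [1, 0, 1, 2, 0]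
  k7 : RR β [0, 0, 1, 2, 0, 0, 3, 1] [0, 1, 0, 2, 0, 0, 3, 1]
  k8 : RR β [1, 1, 2, 0, 3, 0, 1, 1] [1, 1, 2, 0, 3, 1, 1, 0]

/-- the system h4 -/
structure H4 (n : ℕ) (β : FIC) : Prop extends S8 n β where
  j3 : RR β [0, 2, 0, 3, 0] ([0, 2, 0, 3] ++ List.replicate (n + 1) 0)
  k9 : RR β [0, 1, 2, 1, 1, 3, 0, 4, 1, 1] [1, 0, 2, 1, 1, 3, 0, 4, 1, 1]

/-- the system h5 -/
structure H5 (n : ℕ) (β : FIC) : Prop extends S8 n β where
  j3 : RR β [0, 2, 0, 3, 0] ([0, 2] ++ List.replicate (n + 1) 0 ++ [3] ++ List.replicate (n + 1) 0)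

/-- the system h3 -/
structure H3 (n : ℕ) (β : FIC) : Prop extends BaseH n β where
  t1 : RR β [0, 1, 2, 0, 3, 1, 1] [1, 0, 2, 0, 3, 1, 1]
  t2 : RR β [0, 2, 0, 1, 3, 1, 1] [0, 2, 1, 0, 3, 1, 1]
  t3 : RR β [0, 1, 2, 0, 0, 3, 1] [1, 0, 2, 0, 0, 3, 1]
  t4 : RR β [0, 0, 1, 2, 1] [1, 0, 0, 2, 1]
  t5 : RR β [0, 2, 0, 1, 1] [0, 2, 1, 1, 0]

/-- the identities of h4, h5 and the bit `J 3` -/
def S8J (n : ℕ) (β : FIC) : Prop := S8 n β ∧ Has n (FC.ofFIC β) (Bit.J 3)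

end Pool.Agent.MWHP
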