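import Pool.Agent.MWHP.Defs

/-!
# Block MWHP, part P: the base (h) for arbitrary period (rows)

Every row: file `Pool/Agent/HelperNN_MWHP/XXX.lean`, import `Pool.Agent.MWHP.StmtsP`, namespace
`Pool.Agent.MWHP.HNN`, theorem `xxx (hypotheses = rows in uses, in this order) : XxxStmt`.
Most rows are the period `n` twin of the row with the same name of `MWH/StmtsA.lean` (table mwh, column
path: adapt this file).  New: residues mod `n` of the entries `≥ 2`.  Interface rows of the two letter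
principle (proved as the twins of MWS in another file): `MasnStmt`, `SatnStmt`, `LrnnStmt`, `JpinStmt`,
`TlmnStmt` below.  Rows of other squads: `MWH.OKW`, `MWL.TRN`, `MWL.HVP`, `MWL.ABS`, `MWL.KEY`, `MWL.ARR`,
`MWL.TA1`, `MWL.TA2`, `MVO.ONE`, `MWA.NDQ`.
-/

namespace Pool.Agent.MWHP

open Pool.Agent.Helper14_MV Pool.Agent.Helper2_MV Pool.Agent.MVO Pool.Agent.MWL Pool.Agent.MWS
open Pool.Agent.MWA Pool.Agent.MWH

/-! ### interface: the two letter principle for period `n` -/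

/-- **MASN**: the marks lemma (twin of MWS.MAS). -/
def MasnStmt : Prop :=
  ∀ (n : ℕ) (β θ : FIC), BasN n β → β ≤ θ → ∀ (k : ℕ) (B B' : ℕ → List ℕ), OkB k B → OkB k B' →
    EqT n k B B' →
      (∀ (C : ℕ → List ℕ) (i : ℕ) (A D : List ℕ) (x y : ℕ), OkB k C → EqT n k B C → i ≤ k →
        C i = A ++ x :: y :: D → x ≠ y → x ∉ D → y ∉ A → ¬ (Bef (B i) x y ↔ Bef (B' i) x y) →
          RR θ (asm k C) (asm k (Function.update C i (A ++ y :: x :: D)))) →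
        RR θ (asm k B) (asm k B')

/-- **SATN**: insertion of an absorbing letter (twin of MWS.SAT). -/
def SatnStmt : Prop :=
  ∀ (n : ℕ) (β θ : FIC), BasN n β → β ≤ θ → ∀ (k : ℕ) (B : ℕ → List ℕ), OkB k B → ∀ i ≤ k,
    ∀ x : ℕ, NS k x → 2 ≤ deg k (ty B x) → Ab n (FC.ofFIC θ) k (ty B x) i →
      ∀ P Q : List ℕ, B i = P ++ Q → (x ∉ B i ∨ ∃ P', P = P' ++ [x]) →
        RR θ (asm k B) (asm k (Function.update B i (P ++ (List.replicate (2 * n) x ++ Q))))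

/-- **LRNN**: the one letter part (twin of MWS.LRN). -/
def LrnnStmt : Prop := ∀ (n : ℕ) (β θ : FIC), BasN n β → β ≤ θ → LR n (FC.ofFIC θ)

/-- **JPIN**: join primality from invariant sets (twin of MWS.JPI). -/
def JpinStmt : Prop :=
  ∀ (n : ℕ) (β : FIC), BasN n β → ∀ (k : ℕ) (B0 B1 : ℕ → List ℕ) (A : (ℕ → List ℕ) → Prop),
    OkB k B0 → OkB k B1 → Two01 k B0 → A B0 → ¬ A B1 →
      (∀ B B', (∀ j ≤ k, B j = B' j) → A B → A B') →
      (∀ θ : FIC, β ≤ θ → NC2 θ → ¬ RR θ (asm k B0) (asm k B1) → ∀ B B' : ℕ → List ℕ, OkB k B →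
        OkB k B' → Two01 k B → Two01 k B' → RR θ (asm k B) (asm k B') → A B → A B') →
        JPp β (asm k B0, asm k B1)

/-- **TLMN**: the general sufficiency theorem (twin of MWS.TLM). -/
def TlmnStmt : Prop := ∀ (n : ℕ) (β : FIC), BasN n β → SWPn n β → EdgeN n β → DistF β

/-! ### rows -/

/-- **NFE** (uses MASN).  Words with the same types and the same visible facts are equal.
PROOF.  As MWH.NFE, with MASN (`θ = β`) and `EqT` for `Shp` (`EqT` gives the same letters in every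
block). -/
def NfeStmt : Prop :=
  ∀ (n : ℕ) (β : FIC), BaseH n β → ∀ (k : ℕ) (B B' : ℕ → List ℕ), OkB k B → OkB k B' →
    EqT n k B B' →
    (∀ i ≤ k, ∀ x y, x ≠ y → x ∈ B i → y ∈ B i → (∀ j ≤ k, j ≠ i → x ∉ B j ∨ y ∉ B j) →
      (Bef (B i) x y ↔ Bef (B' i) x y)) → RR β (asm k B) (asm k B')

/-- **SWH** (uses MASN, NFE).  The exchange of the neighbours `last x`, `first y` follows from two
letter words.
PROOF.  As MWH.SWH (read its docstring) up to the definition of `U = r2 x y B`, `U' = r2 x y B'`, where `i` is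
the only block with both letters, `Bef (B i) x y`, `¬ Bef (B' i) x y`, `U i = x^p ++ y^q`.  NEW: correct the residues
so that every chunk is `≡ 1 [MOD n]`.  For `j ≠ i` with `m = (U j).count x ≥ 2` (or the same for `y`; `U j` is `x^m`
or `y^m`) let `E j := x^((n-1) m + 1)`, for `m ≤ 1` let `E j := []`; `V j := U j ++ E j`, `V' j := U' j ++ E j`.
In block `i`: `V i := x^e ++ U i ++ y^f`, `V' i := x^e ++ U' i ++ y^f`, `e = (n-1) p + 1` if `p ≥ 2`, `e = 0` if `p = 1`,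
`f = (n-1) q + 1` if `q ≥ 2`, `0` if `q = 1`.  `RR θ (asm k V) (asm k V')` (`rr_ins'`).  In `V` and in `V'` the count of
`x` (of `y`) in a block is `0`, `1`, or `≥ 2` and `≡ 1 [MOD n]` (for `V'`: `EqT` of `B`, `B'`), the same case as for
`U j`.  `C1 j = P j ++ V j ++ Q j`, `C2 j = P j ++ V' j ++ Q j`, `C3 = Function.update C i (A ++ y :: x :: D)` with
`P`, `Q` as in MWH.SWH (`C j = P j ++ x :: Q j` etc.).  NFE for `C`, `C1` and for `C2`, `C3`: replacing one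
occurrence by `m' ≡ 1` occurrences does not change the count mod `n`, and if `m' ≥ 2` then the count in
`U j`, hence in `B j` and in `C j` (`EqT`) is `≥ 2`.  Facts: as in MWH.SWH (if `e > 0` then `p ≥ 2`, so `x ∈ A`; if
`f > 0` then `y ∈ D`). -/
def SwhStmt : Prop := ∀ (n : ℕ) (β : FIC), BaseH n β → SWPn n β

/-- **NFW** (uses NFE, MWH.OKW).  As MWH.NFW. -/
def NfwStmt : Prop :=
  ∀ (n : ℕ) (β : FIC), BaseH n β → ∀ (k : ℕ) (B : ℕ → List ℕ), OkB k B → Two01 k B → ∀ i ≤ k,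
    0 ∈ B i → 1 ∈ B i → (∀ j ≤ k, j ≠ i → 0 ∉ B j ∨ 1 ∉ B j) →
      Vd k (ty B 0) (ty B 1) i ∧ ∃ s : Stt, Vs (ty B 0) (ty B 1) i s ∧
        RR β (asm k B) (asm k (W (ty B 0) (ty B 1) i s)) ∧
        (Bef (B i) 0 1 ↔ s = Stt.xy) ∧ (Bef (B i) 1 0 ↔ s = Stt.yx)

/-- **EQW** (uses NFE, MWH.OKW).  PROOF.  NFE (OKW: counts and facts). -/
def EqwStmt : Prop :=
  ∀ (n : ℕ) (β : FIC), BaseH n β → ∀ (k : ℕ) (a b a' b' : ℕ → ℕ) (i : ℕ), Vd k a b i →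
    Vd k a' b' i → Eq2 n k a a' → Eq2 n k b b' → ∀ s : Stt, Vs a b i s →
      RR β (asm k (W a b i s)) (asm k (W a' b' i s))

/-- **ALL** (uses NFE, MWH.OKW).  `xy ~ yx` gives all transitions if one of the letters occurs twice.
PROOF.  Let `2 ≤ a i`: `rr_ins'` with `P i = 0^n`, nothing else (the count `p + n` is `≡ p`): `0^n 0^p 1^q` is `RR β` to
`W a b i xy`, and `0^n 1^q 0^p` to `W a b i ov` (NFE).  Let `2 ≤ b i`: `Q i = 1^n`. -/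
def AllStmt : Prop :=
  ∀ (n : ℕ) (β θ : FIC), BaseH n β → β ≤ θ → ∀ (k : ℕ) (a b : ℕ → ℕ) (i : ℕ), Vd k a b i →
    (2 ≤ a i ∨ 2 ≤ b i) → Tr θ k a b i Stt.xy Stt.yx →
      Tr θ k a b i Stt.xy Stt.ov ∧ Tr θ k a b i Stt.yx Stt.ov

/-- **SHW** (uses NFE, MWH.OKW, ALL).  Only the shapes matter for transitions.
PROOF.  By symmetry `→` is enough.  `rr_ins'`: in the blocks `j ≠ i` insert `0^(e j) 1^(f j)` at the end,
`e j = (n-1) * a j + a' j` if `2 ≤ a j` (then `a j + e j ≡ a' j`, `≥ 2`), `e j = 0` otherwise (then `a' j = a j`);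
`f` the same for `b`.  In block `i`: (LL) `a i = b i = 1`: nothing.  For `(xy, ov)`: insert `0^(e i)` on the left
and `1^(f i)` on the right: `xy` stays `xy`, `ov` stays `ov`.  For `(yx, ov)`: `0^(e i)` on the right, `1^(f i)` on the left.
NFE identifies the results with `W a' b' i s`, `W a' b' i s'`.  For `(xy, yx)` and `2 ≤ a i` or `2 ≤ b i`: ALL for
`a, b`, the cases `(xy, ov)`, `(yx, ov)`, and transitivity.  `s = s'`: `RR.refl`.  The other orders: `RR.symm`. -/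
def ShwStmt : Prop :=
  ∀ (n : ℕ) (β θ : FIC), BaseH n β → β ≤ θ → ∀ (k : ℕ) (a b a' b' : ℕ → ℕ) (i : ℕ), Vd k a b i →
    Vd k a' b' i → Sh k a a' → Sh k b b' → ∀ s s' : Stt, Vs a b i s → Vs a b i s' →
      (Tr θ k a b i s s' ↔ Tr θ k a' b' i s s')

/-- **RES** (uses NFE, MWH.OKW).  Residues of the second letter can be changed with a one letter
identity.
PROOF.  `rr_ins` (or `rr_ins'` after renaming `0 ↦ 1`) for the words `mw k c`, `mw k c'` with `h 0 = [1]`: `j ≠ i`: the block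
`j` of `W` is `0^(a j) 1^(b j)`.  `s = xy`: `c = b`, `c' = b'`, block `i`: `0^(a i) ++ 1^(b i)`.  `s = yx`: `1^(b i) ++ 0^(a i)`.
`s = ov`, `2 ≤ a i`: `0 ++ 1^(b i) ++ 0^(a i - 1)`.  `s = ov`, `a i = 1` (so `2 ≤ b i`, `2 ≤ b' i`): `c = b + (n-1) e_i`,
`c' = b' + (n-1) e_i` (`FC.add`), block `i`: `[1] ++ [0] ++ 1^(b i + n - 1)`, which has `b i + n` letters `1`: `RR β` to
`W a b i ov` by NFE. -/
def ResStmt : Prop :=
  ∀ (n : ℕ) (β θ : FIC), BaseH n β → β ≤ θ → ∀ (k : ℕ) (a b b' : ℕ → ℕ) (i : ℕ), Vd k a b i →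
    Vd k a b' i → Sh k b b' → L1 θ k b b' → ∀ s : Stt, Vs a b i s →
      RR θ (asm k (W a b i s)) (asm k (W a b' i s))

/-- **SWT** (uses NFE, MWH.OKW).  As MWH.SWT. -/
def SwtStmt : Prop :=
  ∀ (n : ℕ) (β θ : FIC), BaseH n β → β ≤ θ → ∀ (k : ℕ) (a b : ℕ → ℕ) (i : ℕ), Vd k a b i →
    Vd k b a i ∧ ∀ s s' : Stt, Vs a b i s → Vs a b i s' →
      Vs b a i s.sw ∧ (Tr θ k a b i s s' ↔ Tr θ k b a i s.sw s'.sw)

/-- **PS0** (uses NFE, MWH.OKW, SHW).  Push to other blocks, nothing is added in the common block.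
PROOF.  As MWH.PS0.  `rr_push`, then `rr_ins'` with `Q (f i) = []`, for `j' ≠ f i`: `Q j' := 0^(e j') 1^(g j')`,
`e j' = (n-1) * psh k f a j' + a' j'` if `2 ≤ a' j'`, `e j' = a' j' - psh k f a j'` otherwise (`psh ≤ 1` or `psh = 0` by
`Dm`, so the sum is `a' j'`).  The result is `RR β` (NFE) to `W a'' b'' (f i) s`, where `a'' (f i) = a i`,
`b'' (f i) = b i`, and `a'' = a'`, `b'' = b'` elsewhere (the counts agree mod `n`).  Then SHW for `a'', b''` and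
`a', b'`. -/
def Ps0Stmt : Prop :=
  ∀ (n : ℕ) (β θ : FIC), BaseH n β → β ≤ θ → ∀ (k k' : ℕ) (f a b a' b' : ℕ → ℕ) (i : ℕ),
    BMap k k' f → Vd k a b i → Vd k' a' b' (f i) → Dm k k' f a a' → Dm k k' f b b' →
      (∀ j ≤ k, f j = f i → j ≠ i → a j = 0 ∧ b j = 0) → (a i = 1 ↔ a' (f i) = 1) →
        (b i = 1 ↔ b' (f i) = 1) → ∀ s s' : Stt, Vs a b i s → Vs a b i s' →
          Tr θ k a b i s s' → Tr θ k' a' b' (f i) s s'

/-- **PSL** (uses NFE, MWH.OKW, SHW).  Push; letters `1` may come from the left into the common block.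
PROOF.  As MWH.PSL with the insertions of PS0; the block `f i` is `1^m ++ W a b i s i`, take
`b'' (f i) = m + b i ≥ 2`, `a'' (f i) = a i`; then SHW. -/
def PslStmt : Prop :=
  ∀ (n : ℕ) (β θ : FIC), BaseH n β → β ≤ θ → ∀ (k k' : ℕ) (f a b a' b' : ℕ → ℕ) (i : ℕ),
    BMap k k' f → Vd k a b i → Vd k' a' b' (f i) → Dm k k' f a a' → Dm k k' f b b' →
      (∀ j ≤ k, f j = f i → j ≠ i → a j = 0 ∧ (j < i ∨ b j = 0)) → (a i = 1 ↔ a' (f i) = 1) →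
        2 ≤ b i → 2 ≤ b' (f i) →
          Tr θ k a b i Stt.yx Stt.ov → Tr θ k' a' b' (f i) Stt.yx Stt.ov

/-- **PSR** (uses NFE, MWH.OKW, SHW).  As PSL; the block `f i` is `W a b i s i ++ 1^m`, states `xy`, `ov`. -/
def PsrStmt : Prop :=
  ∀ (n : ℕ) (β θ : FIC), BaseH n β → β ≤ θ → ∀ (k k' : ℕ) (f a b a' b' : ℕ → ℕ) (i : ℕ),
    BMap k k' f → Vd k a b i → Vd k' a' b' (f i) → Dm k k' f a a' → Dm k k' f b b' →
      (∀ j ≤ k, f j = f i → j ≠ i → a j = 0 ∧ (i < j ∨ b j = 0)) → (a i = 1 ↔ a' (f i) = 1) →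
        2 ≤ b i → 2 ≤ b' (f i) →
          Tr θ k a b i Stt.xy Stt.ov → Tr θ k' a' b' (f i) Stt.xy Stt.ov

/-- **ABI** (uses SATN, NFE, MWH.OKW).  PROOF.  As MWH.ABI with `0^(2n)` (if `2 ≤ a j`: `a j + 2n ≡ a j`, NFE). -/
def AbiStmt : Prop :=
  ∀ (n : ℕ) (β θ : FIC), BaseH n β → β ≤ θ → ∀ (k : ℕ) (a b : ℕ → ℕ) (i : ℕ), Vd k a b i →
    ∀ j ≤ k, Ab n (FC.ofFIC θ) k a j → (j = i ∨ b j = 0) →
      Vd k (ad n a j) b i ∧ ∀ s : Stt, Vs a b i s →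
        RR θ (asm k (W a b i s)) (asm k (W (ad n a j) b i s))

/-- **ABJ** (uses SATN, NFE, MWH.OKW).  As ABI with the letter `1`. -/
def AbjStmt : Prop :=
  ∀ (n : ℕ) (β θ : FIC), BaseH n β → β ≤ θ → ∀ (k : ℕ) (a b : ℕ → ℕ) (i : ℕ), Vd k a b i →
    ∀ j ≤ k, Ab n (FC.ofFIC θ) k b j → (j = i ∨ a j = 0) →
      Vd k a (ad n b j) i ∧ ∀ s : Stt, Vs a b i s →
        RR θ (asm k (W a b i s)) (asm k (W a (ad n b j) i s))

/-- **ABO** (uses SATN, NFE, MWH.OKW).  As MWH.ABO. -/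
def AboStmt : Prop :=
  ∀ (n : ℕ) (β θ : FIC), BaseH n β → β ≤ θ → ∀ (k : ℕ) (a b : ℕ → ℕ) (i : ℕ), Vd k a b i →
    ∀ j ≤ k, j ≠ i → ((b j ≠ 0 ∧ Ab n (FC.ofFIC θ) k a j) ∨ (a j ≠ 0 ∧ Ab n (FC.ofFIC θ) k b j)) →
      ∀ s s' : Stt, Vs a b i s → Vs a b i s' → Tr θ k a b i s s'

/-- **NRX** (uses MWL.TRN, ABI, ABJ).  As MWH.NRX with `ad n`. -/
def NrxStmt : Prop :=
  ∀ (n : ℕ) (β : FIC), BaseH n β → ∀ (k : ℕ) (a b : ℕ → ℕ) (i : ℕ), Vd k a b i →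
    ∃ a' b' : ℕ → ℕ, Vd k a' b' i ∧ Nrm n (FC.ofFIC β) k a' ∧ Nrm n (FC.ofFIC β) k b' ∧
      (∀ j, a j ≤ a' j ∧ b j ≤ b' j ∧ (a j = 0 → a' j = 0) ∧ (b j = 0 → b' j = 0)) ∧
      ∀ θ : FIC, β ≤ θ → ∀ s s' : Stt, Vs a b i s → Vs a b i s' →
        (Tr θ k a b i s s' ↔ Tr θ k a' b' i s s')

/-- **EDV** (uses NFE, MWH.OKW, NFW, EQW, SWT, ALL, NRX).  As MWH.EDV, with `EqT` for `Shp` and EQW
(`RR β (asm k (W (ty B' 0) (ty B' 1) i s')) (asm k (W (ty B 0) (ty B 1) i s'))`). -/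
def EdvStmt : Prop :=
  ∀ (n : ℕ) (β : FIC), BaseH n β →
    (∀ (k : ℕ) (a b : ℕ → ℕ) (i : ℕ), Vd k a b i → Nrm n (FC.ofFIC β) k a →
      Nrm n (FC.ofFIC β) k b → (a i = 1 → b i = 1 → Eg β k a b i Stt.xy Stt.yx) ∧
      (2 ≤ b i → Eg β k a b i Stt.xy Stt.ov ∧ Eg β k a b i Stt.yx Stt.ov)) → EdgeN n β

/-- **JPX** (uses MVO.ONE, MWL.TRN, MWL.ABS, MWL.KEY, LRNN, MWA.NDQ, JPIN, NFE, MWH.OKW, SHW, RES).
The join prime criterion.
PROOF.  As MWH.JPX (the same invariant set `A`), JPIN, `ND` by NDQ (`BasN.cap`).  Changes: (1) to see that `b1` does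
not absorb at `j`, `¬ F j`: add `d t = (n-1) * b1 t + b t` for `F t`, `0` otherwise; `b1 + d` is `n * b1 t + b t` on `F`
(`≥ 2`, `≡ b t`, heavy) and `b` off `F`: `Nq n`.  (2) After inserting `[1, 1]` in the blocks of `F` the two words are
`RR β` to `W a c i s` and `W a c' i s'` with `c`, `c'` of the shape of `b` and `L1 θ k c c'` (ONE); RES:
`W a c' i s' ~θ W a c i s'`; so `Tr θ k a c i s s'`, and SHW: `Tr θ k a b i s s'`. -/
def JpxStmt : Prop :=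
  ∀ (n : ℕ) (β : FIC), BaseH n β → ∀ (k : ℕ) (a b : ℕ → ℕ) (i : ℕ) (F : ℕ → Prop), Vd k a b i →
    (∀ j ≤ k, F j → 2 ≤ b j) → ∀ s s' : Stt,
      ((a i = 1 ∧ b i = 1 ∧ s = Stt.xy ∧ s' = Stt.yx) ∨
        (F i ∧ s = Stt.xy ∧ s' = Stt.ov) ∨ (F i ∧ s = Stt.yx ∧ s' = Stt.ov)) →
      (∀ θ : FIC, β ≤ θ → NC2 θ → ¬ Tr θ k a b i s s' →
        (∀ j ≤ k, ¬ Ab n (FC.ofFIC θ) k a j) ∧
          (∀ j ≤ k, ¬ F j → ¬ Ab n (FC.ofFIC θ) k b j)) →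
        JPp β (asm k (W a b i s), asm k (W a b i s'))

/-- **LT2** (uses MWL.ARR, MWL.TA2).  As MWH.LT2. -/
def Lt2Stmt : Prop :=
  ∀ (n : ℕ) (R : FC), LR n R → ∀ (k : ℕ) (a : ℕ → ℕ) (u v : ℕ), LL2 k a u v →
    ((∃ j ≤ k, Ab n R k a j) → Has n R (Bit.J 2)) ∧ (Has n R (Bit.J 2) → Ab n R k a v)

/-- **LT3** (uses MWL.HVP, MWL.ARR, MWL.TA2).  As MWH.LT3. -/
def Lt3Stmt : Prop :=
  ∀ (n : ℕ) (R : FC), LR n R → Has n R (Bit.J 3) → ∀ (k : ℕ) (a : ℕ → ℕ), Nrm n R k a →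
    2 ≤ deg k a → (∀ u v, ¬ LL2 k a u v) → ∀ i ≤ k, a i = 1 → ∃ m, i < m ∧ m ≤ k ∧ 2 ≤ a m

/-- **LT4** (uses MWL.HVP, MWL.ARR, MWL.TA1, MWL.TA2).  As MWH.LT4. -/
def Lt4Stmt : Prop :=
  ∀ (n : ℕ) (R : FC), LR n R → ∀ (k : ℕ) (a : ℕ → ℕ), Nrm n R k a → 2 ≤ deg k a →
    ∀ j ≤ k, a j ≠ 0 →
    ((∃ p ≤ j, 2 ≤ a p) → 2 ≤ a j) ∧
    (Has n R (Bit.J 3) → 2 ≤ lb a j → 2 ≤ a j) ∧
    (Has n R (Bit.J 3) → Has n R (Bit.D 1) → (∀ u v, ¬ LL2 k a u v) → 1 ≤ lb a j → 2 ≤ a j)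

/-- **JPC** (uses LRNN, LT2, JPX).  As MWH.JPC. -/
def JpcStmt : Prop :=
  ∀ (n : ℕ) (β : FIC), BaseH n β → ∀ (k : ℕ) (a b : ℕ → ℕ) (i u v : ℕ) (F : ℕ → Prop),
    Vd k a b i → LL2 k a u v → (∀ j ≤ k, F j → 2 ≤ b j) → ∀ s s' : Stt,
      ((a i = 1 ∧ b i = 1 ∧ s = Stt.xy ∧ s' = Stt.yx) ∨
        (F i ∧ s = Stt.xy ∧ s' = Stt.ov) ∨ (F i ∧ s = Stt.yx ∧ s' = Stt.ov)) →
      (∀ θ : FIC, β ≤ θ → NC2 θ → Has n (FC.ofFIC θ) (Bit.J 2) → Tr θ k a b i s s') →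
      (∀ θ : FIC, β ≤ θ → NC2 θ → ∀ j ≤ k, ¬ F j → Ab n (FC.ofFIC θ) k b j →
        Tr θ k a b i s s') →
        JPp β (asm k (W a b i s), asm k (W a b i s'))

/-- **CPH** (uses nothing).  `CapP` from the base identities.
PROOF.  Let `θ ≥ β`, `NC2 θ`, `RR θ u v`, `min p 2 ≠ min q 2` for `p = u.count c`, `q = v.count c`; by symmetry `p ≤ 1`,
`p < q`.  Filter to `c`, rename: `RR θ (0^p) (0^q)`; if `p = 0` append `[0]`.  So `RR θ [0] (0^m)` with `m ≥ 2`.  `Cm2` for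
`k = 1`, `C 0 = C 1 = [0,1]`: `[0,1,2,0,1] ≈ [1,0,2,0,1]` (exchange in block `0`) and `≈ [0,1,2,1,0]` (exchange in block
`1`); delete `2`: (F) `[0,1,0,1] ≈ [1,0,0,1]`, (F') `[0,1,0,1] ≈ [0,1,1,0]`.  Let `w^m` be the `m`-fold product.  Claim
`(01)^(m+1) ≈ (10)^(m+1)` for `m ≥ 1`: by (F) the first `m` factors are changed to `10` one after the other from
the left (`(10)^j (01) (01) ..` → `(10)^j (10) (01) ..`), then the last factor by (F') with the letters exchanged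
(`[1,0,0,1] ≈ [1,0,1,0]`).  `0 ↦ [0,1]` and `0 ↦ [1,0]` in `RR θ [0] (0^m)`: `[0,1] ~ (01)^m ≈ (10)^m ~ [1,0]`, a
contradiction. -/
def CphStmt : Prop := ∀ β : FIC, Cm2 β → CapP β

end Pool.Agent.MWHP
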